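import Mathlib
import Pool.Agent.Helper239.CpE

/-- There are Tychonoff spaces `X`, `Y` with `X` σ-compact and `Y` not σ-compact such that each of
`C_p(X)`, `C_p(Y)` condenses onto the other. Here `C_p(X)` is the set of all continuous functions
`X → ℝ` with the subspace topology of the product `X → ℝ`. -/
theorem Pool.Agent.Results.MP_188e7a_gt.MutualCondensation.result :
    ∃ (X Y : Type) (_ : TopologicalSpace X) (_ : TopologicalSpace Y),
      T35Space X ∧ T35Space Y ∧ SigmaCompactSpace X ∧ ¬ SigmaCompactSpace Y ∧
      (∃ φ : {f : X → ℝ // Continuous f} → {g : Y → ℝ // Continuous g},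
        Continuous φ ∧ Function.Bijective φ) ∧
      (∃ ψ : {g : Y → ℝ // Continuous g} → {f : X → ℝ // Continuous f},
        Continuous ψ ∧ Function.Bijective ψ) :=
  H239Cp.main
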